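import Pool.Agent.TH229.Kan.Sphere

/-!
# Random Fatou sets of the holomorphic Kan skew product, base degree at least six
-/

set_option autoImplicit false

namespace Pool.Agent.Results.MP_4481e3_an.LargeDegree

open Filter Topology MeasureTheory
open scoped OnePoint

/-- The fibre map `f_u(z) = z + α cos(2πu) z (1 - z)` on the plane. -/
noncomputable def fibre (α : ℂ) (u : ℝ) (z : ℂ) : ℂ :=
  z + α * ((Real.cos (2 * Real.pi * u) : ℝ) : ℂ) * z * (1 - z)

/-- The fibre iterates `f_u^n` on the Riemann sphere `OnePoint ℂ`, each fibre map fixing `∞`; the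
base map is `u ↦ L u` (the fibre maps are `1`-periodic in `u`, so no reduction mod `1` is needed). -/
noncomputable def orbit (L : ℕ) (α : ℂ) (u : ℝ) : ℕ → OnePoint ℂ → OnePoint ℂ
  | 0, z => z
  | n + 1, z => OnePoint.map (fibre α ((L : ℝ) ^ n * u)) (orbit L α u n z)

/-- The chordal (spherical) distance on `OnePoint ℂ`. -/
noncomputable def chord : OnePoint ℂ → OnePoint ℂ → ℝ
  | some a, some b => 2 * ‖a - b‖ / (Real.sqrt (1 + ‖a‖ ^ 2) * Real.sqrt (1 + ‖b‖ ^ 2))
  | some a, none => 2 / Real.sqrt (1 + ‖a‖ ^ 2)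
  | none, some b => 2 / Real.sqrt (1 + ‖b‖ ^ 2)
  | none, none => 0

/-- Normality of a sequence of self-maps of the sphere on `U`: every subsequence has a further
subsequence converging, uniformly on compact subsets of `U`, in the spherical metric. -/
def NormalOn (F : ℕ → OnePoint ℂ → OnePoint ℂ) (U : Set (OnePoint ℂ)) : Prop :=
  ∀ φ : ℕ → ℕ, StrictMono φ → ∃ ψ : ℕ → ℕ, StrictMono ψ ∧ ∃ h : OnePoint ℂ → OnePoint ℂ,
    ∀ K : Set (OnePoint ℂ), K ⊆ U → IsCompact K → ∀ ε : ℝ, 0 < ε →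
      ∃ N : ℕ, ∀ m ≥ N, ∀ w ∈ K, chord (F (φ (ψ m)) w) (h w) < ε

/-- The random Fatou set over `u`. -/
def fatou (L : ℕ) (α : ℂ) (u : ℝ) : Set (OnePoint ℂ) :=
  {z | ∃ U : Set (OnePoint ℂ), IsOpen U ∧ z ∈ U ∧ NormalOn (orbit L α u) U}

/-- The combined basin of `0`, `1`, `∞` over `u`. -/
def basin (L : ℕ) (α : ℂ) (u : ℝ) : Set (OnePoint ℂ) :=
  {z | Tendsto (fun n => orbit L α u n z) atTop (𝓝 ((0 : ℂ) : OnePoint ℂ)) ∨
    Tendsto (fun n => orbit L α u n z) atTop (𝓝 ((1 : ℂ) : OnePoint ℂ)) ∨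
    Tendsto (fun n => orbit L α u n z) atTop (𝓝 ∞)}

open Pool.Agent.TH229.Kan

lemma orbit_infty (L : ℕ) (α : ℂ) (u : ℝ) (n : ℕ) : orbit L α u n ∞ = ∞ := by
  induction n with
  | zero => rfl
  | succ n ih => rw [orbit, ih]; rfl

lemma orbit_coe (L : ℕ) (α : ℂ) (u : ℝ) (n : ℕ) (z : ℂ) :
    orbit L α u n (z : OnePoint ℂ) = ((Phi L α z n u : ℂ) : OnePoint ℂ) := by
  induction n with
  | zero => rfl
  | succ n ih =>
    rw [orbit, ih, OnePoint.map_some, Phi_succ, cc_cr, fibre, cr]

lemma chord_coe (a b : ℂ) : chord (a : OnePoint ℂ) (b : OnePoint ℂ) = dd a b := rfl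

lemma chord_coe_infty (a : ℂ) : chord (a : OnePoint ℂ) ∞ = 2 / Real.sqrt (1 + ‖a‖ ^ 2) := rfl

lemma chord_infty_infty : chord ∞ ∞ = 0 := rfl

lemma chord_infty_le {a : ℂ} {R : ℝ} (hR : 0 < R) (ha : R ≤ ‖a‖) :
    chord (a : OnePoint ℂ) ∞ ≤ 2 / R := by
  rw [chord_coe_infty]
  have h1 := norm_le_sq a
  have h2 := one_le_sq a
  gcongr
  exact ha.trans h1

lemma chord_comm (x y : OnePoint ℂ) : chord x y = chord y x := by
  induction x using OnePoint.rec with
  | infty =>
    induction y using OnePoint.rec with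
    | infty => rfl
    | coe b => rfl
  | coe a =>
    induction y using OnePoint.rec with
    | infty => rfl
    | coe b => rw [chord_coe, chord_coe, dd_comm]

lemma sqrt_lip (a b : ℂ) : Real.sqrt (1 + ‖b‖ ^ 2) ≤ ‖a - b‖ + Real.sqrt (1 + ‖a‖ ^ 2) := by
  set A := Real.sqrt (1 + ‖a‖ ^ 2) with hA
  have hA1 : 1 ≤ A := one_le_sq a
  have hA2 : A ^ 2 = 1 + ‖a‖ ^ 2 := Real.sq_sqrt (by positivity)
  have hA3 : ‖a‖ ≤ A := norm_le_sq a
  have h1 : ‖b‖ ≤ ‖a - b‖ + ‖a‖ := by
    have := norm_sub_le a (a - b)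
    rw [sub_sub_cancel] at this
    linarith
  rw [Real.sqrt_le_left (by positivity)]
  nlinarith [norm_nonneg a, norm_nonneg b, norm_nonneg (a - b)]

lemma chord_triangle (x y z : OnePoint ℂ) : chord x z ≤ chord x y + chord y z := by
  induction x using OnePoint.rec with
  | infty =>
    induction y using OnePoint.rec with
    | infty => rw [chord_infty_infty, zero_add]
    | coe b =>
      induction z using OnePoint.rec with
      | infty =>
        rw [chord_infty_infty, chord_comm ∞, chord_coe_infty]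
        positivity
      | coe c =>
        rw [chord_comm ∞, chord_comm ∞, chord_coe_infty, chord_coe_infty, chord_coe, dd]
        have hb := one_le_sq b
        have hc := one_le_sq c
        have h := sqrt_lip c b
        rw [norm_sub_rev] at h
        set B := Real.sqrt (1 + ‖b‖ ^ 2)
        set C := Real.sqrt (1 + ‖c‖ ^ 2)
        have hB0 : 0 < B := by linarith
        have hC0 : 0 < C := by linarith
        rw [div_add_div _ _ (by positivity) (by positivity), div_le_div_iff₀ (by positivity)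
          (by positivity)]
        nlinarith [mul_le_mul_of_nonneg_left h (by positivity : 0 ≤ B * C)]
  | coe a =>
    induction y using OnePoint.rec with
    | infty =>
      induction z using OnePoint.rec with
      | infty => rw [chord_infty_infty, add_zero]
      | coe c =>
        rw [chord_comm ∞, chord_coe_infty, chord_coe_infty, chord_coe, dd]
        have ha := one_le_sq a
        have hc := one_le_sq c
        have ha2 := norm_le_sq a
        have hc2 := norm_le_sq c
        have h := norm_sub_le a c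
        set A := Real.sqrt (1 + ‖a‖ ^ 2)
        set C := Real.sqrt (1 + ‖c‖ ^ 2)
        have hA0 : 0 < A := by linarith
        have hC0 : 0 < C := by linarith
        rw [div_add_div _ _ (by positivity) (by positivity), div_le_div_iff₀ (by positivity)
          (by positivity)]
        have h' : ‖a - c‖ ≤ A + C := by linarith
        nlinarith [mul_le_mul_of_nonneg_left h' (by positivity : 0 ≤ A * C)]
    | coe b =>
      induction z using OnePoint.rec with
      | infty =>
        rw [chord_coe_infty, chord_coe_infty, chord_coe, dd]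
        have ha := one_le_sq a
        have hb := one_le_sq b
        have h := sqrt_lip a b
        set A := Real.sqrt (1 + ‖a‖ ^ 2)
        set B := Real.sqrt (1 + ‖b‖ ^ 2)
        have hA0 : 0 < A := by linarith
        have hB0 : 0 < B := by linarith
        rw [div_add_div _ _ (by positivity) (by positivity), div_le_div_iff₀ (by positivity)
          (by positivity)]
        nlinarith [mul_le_mul_of_nonneg_left h (by positivity : 0 ≤ A * B)]
      | coe c =>
        rw [chord_coe, chord_coe, chord_coe]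
        exact dd_triangle a b c

lemma tendsto_infty_iff (g : ℕ → ℂ) :
    Tendsto (fun n => ((g n : ℂ) : OnePoint ℂ)) atTop (𝓝 ∞) ↔
      Tendsto (fun n => ‖g n‖) atTop atTop := by
  rw [tendsto_norm_atTop_iff_cobounded, Metric.cobounded_eq_cocompact,
    ← Filter.coclosedCompact_eq_cocompact, ← OnePoint.comap_coe_nhds_infty, tendsto_comap_iff]
  rfl

lemma mem_basin_coe (L : ℕ) (α : ℂ) (u : ℝ) (z : ℂ) :
    (z : OnePoint ℂ) ∈ basin L α u ↔ Absorbed L α z u := by
  unfold basin Absorbed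
  simp only [Set.mem_ofPred_eq, orbit_coe]
  refine or_congr ?_ (or_congr ?_ ?_)
  · exact (OnePoint.isOpenEmbedding_coe.tendsto_nhds_iff (f := fun n => Phi L α z n u)).symm
  · exact (OnePoint.isOpenEmbedding_coe.tendsto_nhds_iff (f := fun n => Phi L α z n u)).symm
  · exact tendsto_infty_iff _

lemma infty_mem_basin (L : ℕ) (α : ℂ) (u : ℝ) : ∞ ∈ basin L α u := by
  right; right
  simp_rw [orbit_infty]
  exact tendsto_const_nhds

/-- a point outside the trap at every late good time is far from `0`, `1`, `∞` -/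
lemma trap_of_chord {r R δ : ℝ} (hδ0 : 0 < δ)
    (hδ1 : δ ≤ 1 / 2) (hδr : 3 * δ ≤ r) (hδR : δ * (R + 1) < 2) {a : ℂ} {p : OnePoint ℂ}
    (hp : p = ((0 : ℂ) : OnePoint ℂ) ∨ p = ((1 : ℂ) : OnePoint ℂ) ∨ p = ∞)
    (h : chord (a : OnePoint ℂ) p < δ) : ‖a‖ < r ∨ ‖1 - a‖ < r ∨ R < ‖a‖ := by
  set A := Real.sqrt (1 + ‖a‖ ^ 2) with hA
  have hA1 : 1 ≤ A := one_le_sq a
  have hA2 : A ^ 2 = 1 + ‖a‖ ^ 2 := Real.sq_sqrt (by positivity)
  have hA3 : A ≤ 1 + ‖a‖ := by
    apply le_of_sq_le_sq _ (by positivity)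
    nlinarith [norm_nonneg a]
  rcases hp with rfl | rfl | rfl
  · left
    have h1 : chord (a : OnePoint ℂ) ((0 : ℂ) : OnePoint ℂ) = 2 * ‖a‖ / A := by
      rw [chord_coe, dd]
      simp [← hA]
    rw [h1, div_lt_iff₀ (by linarith)] at h
    nlinarith [norm_nonneg a]
  · right; left
    have h1 : chord (a : OnePoint ℂ) ((1 : ℂ) : OnePoint ℂ) = 2 * ‖a - 1‖ / (A * Real.sqrt 2) := by
      rw [chord_coe, dd]
      have : (1 : ℝ) + ‖(1 : ℂ)‖ ^ 2 = 2 := by rw [norm_one]; norm_num
      rw [this]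
    rw [h1, div_lt_iff₀ (by positivity)] at h
    have h2 : Real.sqrt 2 ≤ 3 / 2 := by
      rw [Real.sqrt_le_left (by norm_num)]
      norm_num
    have h3 : ‖a‖ ≤ ‖a - 1‖ + 1 := by
      have := norm_add_le (a - 1) 1
      rwa [sub_add_cancel, norm_one] at this
    have h4 : 0 ≤ ‖a - 1‖ := norm_nonneg _
    have h5 : A * Real.sqrt 2 ≤ (2 + ‖a - 1‖) * (3 / 2) :=
      mul_le_mul (by linarith) h2 (Real.sqrt_nonneg _) (by linarith)
    have h6 : δ * (A * Real.sqrt 2) ≤ δ * ((2 + ‖a - 1‖) * (3 / 2)) :=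
      mul_le_mul_of_nonneg_left h5 hδ0.le
    rw [norm_sub_rev]
    nlinarith
  · right; right
    rw [chord_coe_infty, ← hA, div_lt_iff₀ (by linarith)] at h
    nlinarith [norm_nonneg a]

lemma fatou_subset {L : ℕ} {α : ℂ} (hα0 : 0 < ‖α‖) (hα : ‖α‖ < 1) {θ : ℝ} (hθ0 : 0 < θ)
    (hθ : θ < 1) {i : ℕ} {u : ℝ} (hu : ∃ᶠ n : ℕ in atTop, (L : ℝ) ^ n * u ∈ KK L α θ i)
    (hnull : volume {z : ℂ | ¬ Absorbed L α z u} = 0) : fatou L α u ⊆ basin L α u := by
  rintro z ⟨U, hUo, hzU, hnorm⟩
  induction z using OnePoint.rec with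
  | infty => exact infty_mem_basin L α u
  | coe z =>
    rw [mem_basin_coe]
    have hC : (0 : ℝ) < (i : ℝ) + 1 := by positivity
    obtain ⟨φ, hφ, hφK⟩ := extraction_of_frequently_atTop hu
    obtain ⟨ψ, hψ, h, hconv⟩ := hnorm φ hφ
    have hr := rS_pos hα hθ hC
    have hR := RE_pos hα0 hC
    set r := rS α θ ((i : ℝ) + 1) with hrdef
    set R := RE α ((i : ℝ) + 1) with hRdef
    obtain ⟨δ, hδ0, hδ1, hδr, hδR⟩ : ∃ δ : ℝ, 0 < δ ∧ δ ≤ 1 / 2 ∧ 3 * δ ≤ r ∧ δ * (R + 1) < 2 := by
      refine ⟨min (1 / 2) (min (r / 3) (1 / (R + 1))), ?_, min_le_left _ _, ?_, ?_⟩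
      · have : 0 < R + 1 := by linarith
        positivity
      · have := (min_le_right (1 / 2) (min (r / 3) (1 / (R + 1)))).trans (min_le_left _ _)
        linarith
      · have h1 := (min_le_right (1 / 2) (min (r / 3) (1 / (R + 1)))).trans (min_le_right _ _)
        have h2 : 0 < R + 1 := by linarith
        rw [le_div_iff₀ h2] at h1
        linarith
    -- a compact disc
    have hU' : IsOpen ((fun w : ℂ => (w : OnePoint ℂ)) ⁻¹' U) := hUo.preimage OnePoint.continuous_coe
    obtain ⟨r0, hr0, hr0U⟩ := Metric.isOpen_iff.1 hU' z hzU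
    set K : Set ℂ := Metric.closedBall z (r0 / 2) with hK
    have hKU : (fun w : ℂ => (w : OnePoint ℂ)) '' K ⊆ U := by
      rintro _ ⟨w, hw, rfl⟩
      apply hr0U
      rw [hK, Metric.mem_closedBall] at hw
      rw [Metric.mem_ball]
      linarith
    have hKc : IsCompact ((fun w : ℂ => (w : OnePoint ℂ)) '' K) :=
      (isCompact_closedBall z (r0 / 2)).image OnePoint.continuous_coe
    obtain ⟨N, hN⟩ := hconv _ hKU hKc (δ / 4) (by positivity)
    have hN' : ∀ m ≥ N, ∀ w ∈ K, chord ((Phi L α w (φ (ψ m)) u : ℂ) : OnePoint ℂ) (h w) < δ / 4 := by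
      intro m hm w hw
      have := hN m hm w ⟨w, hw, rfl⟩
      rwa [orbit_coe] at this
    set n := φ (ψ N) with hn
    -- a nearby absorbed point
    have hcont := (Phi_cont_z L α n u).continuousAt (x := z)
    rw [Metric.continuousAt_iff] at hcont
    obtain ⟨r1, hr1, hr1c⟩ := hcont (δ / 8) (by positivity)
    have hball : volume (Metric.ball z (min r1 (r0 / 2))) ≠ 0 := by
      have := Metric.measure_ball_pos (volume : Measure ℂ) z (r := min r1 (r0 / 2)) (by positivity)
      exact this.ne'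
    obtain ⟨w, hwb, hwa⟩ : ∃ w ∈ Metric.ball z (min r1 (r0 / 2)), Absorbed L α w u := by
      by_contra hcon
      push Not at hcon
      exact hball (measure_mono_null (fun w hw => hcon w hw) hnull)
    rw [Metric.mem_ball] at hwb
    have hw1 : dist w z < r1 := hwb.trans_le (min_le_left _ _)
    have hwK : w ∈ K := by
      rw [hK, Metric.mem_closedBall]
      exact (hwb.trans_le (min_le_right _ _)).le
    have hd1 : dd (Phi L α z n u) (Phi L α w n u) < δ / 4 := by
      have h1 := hr1c hw1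
      rw [dist_eq_norm] at h1
      have h2 := dd_le (Phi L α w n u) (Phi L α z n u)
      rw [dd_comm] at h2
      linarith
    -- the limit of the orbit of w
    obtain ⟨p, hp, hplim⟩ : ∃ p : OnePoint ℂ, (p = ((0 : ℂ) : OnePoint ℂ) ∨
        p = ((1 : ℂ) : OnePoint ℂ) ∨ p = ∞) ∧
        ∀ᶠ k in atTop, chord ((Phi L α w k u : ℂ) : OnePoint ℂ) p < δ / 4 := by
      rcases hwa with h1 | h1 | h1
      · refine ⟨_, Or.inl rfl, ?_⟩
        have h2 := (tendsto_zero_iff_norm_tendsto_zero.1 h1).eventually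
          (gt_mem_nhds (by positivity : 0 < δ / 8))
        filter_upwards [h2] with k hk
        rw [chord_coe]
        have := dd_le (Phi L α w k u) 0
        rw [sub_zero] at this
        linarith
      · refine ⟨_, Or.inr (Or.inl rfl), ?_⟩
        have h2 := (tendsto_iff_norm_sub_tendsto_zero.1 h1).eventually
          (gt_mem_nhds (by positivity : 0 < δ / 8))
        filter_upwards [h2] with k hk
        rw [chord_coe]
        have := dd_le (Phi L α w k u) 1
        linarith
      · refine ⟨_, Or.inr (Or.inr rfl), ?_⟩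
        filter_upwards [h1.eventually_gt_atTop (8 / δ)] with k hk
        have h3 := chord_infty_le (by positivity : 0 < 8 / δ) hk.le
        have h4 : 2 / (8 / δ) = δ / 4 := by field_simp; norm_num
        rw [h4] at h3
        refine lt_of_le_of_ne h3 fun heq => ?_
        rw [chord_coe_infty, div_eq_iff (by have := one_le_sq (Phi L α w k u); positivity)] at heq
        have h5 := norm_le_sq (Phi L α w k u)
        rw [div_lt_iff₀ hδ0] at hk
        nlinarith
    obtain ⟨m, hm1, hm2⟩ : ∃ m ≥ N, chord ((Phi L α w (φ (ψ m)) u : ℂ) : OnePoint ℂ) p < δ / 4 := by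
      have h1 : Tendsto (fun m => φ (ψ m)) atTop atTop :=
        hφ.tendsto_atTop.comp hψ.tendsto_atTop
      have h2 := (h1.eventually hplim).and (eventually_ge_atTop N)
      obtain ⟨m, hm1, hm2⟩ := h2.exists
      exact ⟨m, hm2, hm1⟩
    have hA := hN' N le_rfl w hwK
    have hB := hN' m hm1 w hwK
    have hfin : chord ((Phi L α z n u : ℂ) : OnePoint ℂ) p < δ := by
      have t1 := chord_triangle ((Phi L α z n u : ℂ) : OnePoint ℂ)
        ((Phi L α w n u : ℂ) : OnePoint ℂ) p
      have t2 := chord_triangle ((Phi L α w n u : ℂ) : OnePoint ℂ) (h w) p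
      have t3 := chord_triangle (h w) ((Phi L α w (φ (ψ m)) u : ℂ) : OnePoint ℂ) p
      rw [chord_comm (h w) ((Phi L α w (φ (ψ m)) u : ℂ) : OnePoint ℂ)] at t3
      rw [chord_coe] at t1
      linarith
    have htrap := trap_of_chord hδ0 hδ1 hδr hδR hp hfin
    exact absorbed_of_trapped hα0 hα hθ0 hθ (hφK (ψ N)) htrap


lemma fatou_mem_infty {L : ℕ} {α : ℂ} (hα0 : 0 < ‖α‖) {u : ℝ} (hu : ∃ i : ℕ, u ∈ GE L ((i : ℝ) + 1)) :
    (∞ : OnePoint ℂ) ∈ fatou L α u := by
  obtain ⟨i, hi⟩ := hu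
  have hM : (0 : ℝ) < (i : ℝ) + 1 := by positivity
  have hR := RE_pos hα0 hM
  set R := RE α ((i : ℝ) + 1) with hRdef
  refine ⟨((fun w : ℂ => (w : OnePoint ℂ)) '' Metric.closedBall 0 R)ᶜ, ?_, ?_, ?_⟩
  · rw [OnePoint.isOpen_compl_image_coe]
    exact ⟨Metric.isClosed_closedBall, isCompact_closedBall _ _⟩
  · simp
  · intro φ hφ
    refine ⟨id, strictMono_id, fun _ => ∞, fun K hK _ ε hε => ?_⟩
    have hlim : Tendsto (fun k : ℕ => (2 : ℝ) ^ k) atTop atTop :=
      tendsto_pow_atTop_atTop_of_one_lt (by norm_num)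
    obtain ⟨k0, hk0⟩ := (hlim.eventually_gt_atTop (2 / ε)).exists_forall_of_atTop
    refine ⟨k0, fun m hm w hw => ?_⟩
    induction w using OnePoint.rec with
    | infty => rw [orbit_infty, chord_infty_infty]; exact hε
    | coe w =>
      rw [orbit_coe]
      have hwR : R ≤ ‖w‖ := by
        by_contra hcon
        push Not at hcon
        exact hK hw ⟨w, by rw [Metric.mem_closedBall, dist_zero_right]; exact hcon.le, rfl⟩
      have h1 := escape hα0 hM hi hwR (φ (id m))
      have h2 : k0 ≤ φ (id m) := hm.trans (hφ.id_le m)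
      have h3 := hk0 _ h2
      have h4 : (0 : ℝ) < 2 ^ (φ (id m)) := by positivity
      have h5 : (2 : ℝ) ^ (φ (id m)) ≤ ‖Phi L α w (φ (id m)) u‖ := by
        refine le_trans ?_ h1
        nlinarith
      refine (chord_infty_le h4 h5).trans_lt ?_
      rw [div_lt_iff₀ hε] at h3
      rw [div_lt_iff₀ h4]
      linarith

lemma basin_subset {L : ℕ} {α : ℂ} (hα0 : 0 < ‖α‖) (hα : ‖α‖ < 1) {θ : ℝ} (hθ0 : 0 < θ)
    (hθ : θ < 1) {i : ℕ} {u : ℝ} (hu : ∃ᶠ n : ℕ in atTop, (L : ℝ) ^ n * u ∈ KK L α θ i)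
    (hE : ∃ i : ℕ, u ∈ GE L ((i : ℝ) + 1)) : basin L α u ⊆ fatou L α u := by
  intro z hz
  induction z using OnePoint.rec with
  | infty => exact fatou_mem_infty hα0 hE
  | coe z =>
    rw [mem_basin_coe] at hz
    obtain ⟨U, hU, hzU, h⟩ := local_limit hα0 hα hθ0 hθ hu hz
    refine ⟨(fun w : ℂ => (w : OnePoint ℂ)) '' U, ?_, ⟨z, hzU, rfl⟩, fun φ hφ => ⟨id, strictMono_id, ?_⟩⟩
    · exact OnePoint.isOpenEmbedding_coe.isOpenMap U hU
    rcases h with h | h | h
    · refine ⟨fun _ => ((0 : ℂ) : OnePoint ℂ), fun K hK _ ε hε => ?_⟩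
      obtain ⟨N, hN⟩ := h (ε / 2) (by positivity)
      refine ⟨N, fun m hm w hw => ?_⟩
      obtain ⟨w, hwU, rfl⟩ := hK hw
      have h1 := hN (φ (id m)) (hm.trans (hφ.id_le m)) w hwU
      simp only [orbit_coe]
      rw [chord_coe]
      have h2 := dd_le (Phi L α w (φ (id m)) u) 0
      rw [sub_zero] at h2
      linarith
    · refine ⟨fun _ => ((1 : ℂ) : OnePoint ℂ), fun K hK _ ε hε => ?_⟩
      obtain ⟨N, hN⟩ := h (ε / 2) (by positivity)
      refine ⟨N, fun m hm w hw => ?_⟩
      obtain ⟨w, hwU, rfl⟩ := hK hw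
      have h1 := hN (φ (id m)) (hm.trans (hφ.id_le m)) w hwU
      simp only [orbit_coe]
      rw [chord_coe]
      have h2 := dd_le (Phi L α w (φ (id m)) u) 1
      linarith
    · refine ⟨fun _ => ∞, fun K hK _ ε hε => ?_⟩
      obtain ⟨N, hN⟩ := h (4 / ε)
      refine ⟨N, fun m hm w hw => ?_⟩
      obtain ⟨w, hwU, rfl⟩ := hK hw
      have h1 := hN (φ (id m)) (hm.trans (hφ.id_le m)) w hwU
      simp only [orbit_coe]
      have h2 := chord_infty_le (by positivity : 0 < 4 / ε) h1.le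
      have h3 : 2 / (4 / ε) = ε / 2 := by field_simp; norm_num
      rw [h3] at h2
      linarith

/-- For every degree `L ≥ 6` and every complex `α` with `0 < |α| < 1` whose two fibre exponents are
negative, the random Fatou set over almost every `u` is the combined basin of `0`, `1`, `∞`. -/
theorem result : ∀ L : ℕ, 6 ≤ L → ∀ α : ℂ, 0 < ‖α‖ → ‖α‖ < 1 →
    (∫ u in (0 : ℝ)..1, Real.log ‖1 + α * ((Real.cos (2 * Real.pi * u) : ℝ) : ℂ)‖ < 0) →
    (∫ u in (0 : ℝ)..1, Real.log ‖1 - α * ((Real.cos (2 * Real.pi * u) : ℝ) : ℂ)‖ < 0) →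
    ∀ᵐ u : ℝ, fatou L α u = basin L α u := by
  intro L hL α hα0 hα h0 h1
  obtain ⟨θ, hθ0, hθ, hGS⟩ := ae_GS (L := L) (by omega) hα h0 h1
  have hio := ae_KK (L := L) (by omega) hθ0 hGS
  have hE := ae_GE (L := L) (by omega)
  have hfub : ∀ᵐ u : ℝ, volume {z : ℂ | ¬ Absorbed L α z u} = 0 := by
    have hm : MeasurableSet {p : ℂ × ℝ | ¬ Absorbed L α p.1 p.2} := (Absorbed_measurable L α).compl
    have h2 : (volume.prod volume : Measure (ℂ × ℝ)) {p : ℂ × ℝ | ¬ Absorbed L α p.1 p.2} = 0 := by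
      rw [Measure.measure_prod_null hm]
      filter_upwards with z
      exact ae_absorbed hL hα0 hα h0 h1 z
    rw [Measure.prod_apply_symm hm, lintegral_eq_zero_iff (measurable_measure_prodMk_right hm)] at h2
    exact h2
  filter_upwards [hio, hfub, hE] with u ⟨i, hi⟩ hu2 hu3
  exact Set.Subset.antisymm (fatou_subset hα0 hα hθ0 hθ hi hu2) (basin_subset hα0 hα hθ0 hθ hi hu3)

end Pool.Agent.Results.MP_4481e3_an.LargeDegree
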